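import Mathlib

/-!
# Reconstructing convex bodies from translated real Ehrhart functions

Two convex bodies `K, H` in `ℝ^d` with `L_{K+w}(s) = L_{H+w}(s)` for all real `s > 0` and all
integer vectors `w` are equal.
-/

namespace Pool.Agent.Results.MP_c39918_co.TranslatesDetermine

open Set Topology

/-- The integer vector `v`, regarded as a point of `ℝ^d`. -/
def intVec {d : ℕ} (v : Fin d → ℤ) : Fin d → ℝ := fun i => (v i : ℝ)

/-- The real Ehrhart function `L_K(s) = #(sK ∩ ℤ^d)`. -/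
noncomputable def realEhrhart {d : ℕ} (K : Set (Fin d → ℝ)) (s : ℝ) : ℕ :=
  Set.ncard {v : Fin d → ℤ | intVec v ∈ (fun x : Fin d → ℝ => s • x) '' K}

/-- The translate `K + w` by an integer vector `w`. -/
def translate {d : ℕ} (K : Set (Fin d → ℝ)) (w : Fin d → ℤ) : Set (Fin d → ℝ) :=
  (fun x => x + intVec w) '' K

theorem mem_scaled_iff {d : ℕ} (K : Set (Fin d → ℝ)) (w v : Fin d → ℤ) {r : ℝ} (hr : 0 < r) :
    intVec v ∈ (fun x : Fin d → ℝ => r⁻¹ • x) '' (translate K w) ↔
      (fun i => r * (v i : ℝ) - (w i : ℝ)) ∈ K := by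
  constructor
  · rintro ⟨y, ⟨x, hx, rfl⟩, hxy⟩
    have hxv : (fun i => r * (v i : ℝ) - (w i : ℝ)) = x := by
      funext i
      have := congrFun hxy i
      simp only [intVec, Pi.smul_apply, Pi.add_apply, smul_eq_mul] at this
      rw [← this]
      field_simp
      ring
    rw [hxv]
    exact hx
  · intro h
    refine ⟨_, ⟨_, h, rfl⟩, ?_⟩
    funext i
    simp only [intVec, Pi.smul_apply, Pi.add_apply, smul_eq_mul]
    field_simp
    ring

/-- For a set contained in the cube of radius `R` and `r > 2R`, the Ehrhart value at `1/r`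
detects whether the point `r v - w` lies in the set. -/
theorem ehrhart_detects {d : ℕ} (K : Set (Fin d → ℝ)) (R r : ℝ) (hR : 0 ≤ R) (hr : 2 * R < r)
    (hKR : ∀ x ∈ K, ∀ i, |x i| ≤ R) (v w : Fin d → ℤ)
    (hv : ∀ i, |r * (v i : ℝ) - (w i : ℝ)| ≤ R) :
    realEhrhart (translate K w) r⁻¹ = 1 ↔ (fun i => r * (v i : ℝ) - (w i : ℝ)) ∈ K := by
  have hr0 : 0 < r := by linarith
  have hsub : {v' : Fin d → ℤ | intVec v' ∈ (fun x : Fin d → ℝ => r⁻¹ • x) '' (translate K w)}
      ⊆ {v} := by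
    intro v' hv'
    rw [mem_ofPred_eq, mem_scaled_iff K w v' hr0] at hv'
    by_contra hne
    have : ∃ i, v' i ≠ v i := by
      by_contra hcon
      push Not at hcon
      exact hne (funext hcon)
    obtain ⟨i, hi⟩ := this
    have h1 := hKR _ hv' i
    have h2 := hv i
    have h3 : (1 : ℝ) ≤ |(v' i : ℝ) - (v i : ℝ)| := by
      have : (1 : ℤ) ≤ |v' i - v i| := Int.one_le_abs (sub_ne_zero.mpr hi)
      exact_mod_cast this
    have h4 : r * |(v' i : ℝ) - (v i : ℝ)| ≤ 2 * R := by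
      have : r * |(v' i : ℝ) - (v i : ℝ)| =
          |(r * (v' i : ℝ) - (w i : ℝ)) - (r * (v i : ℝ) - (w i : ℝ))| := by
        rw [← abs_of_pos hr0, ← abs_mul, abs_of_pos hr0]
        congr 1
        ring
      rw [this]
      calc _ ≤ |r * (v' i : ℝ) - (w i : ℝ)| + |r * (v i : ℝ) - (w i : ℝ)| := abs_sub _ _
        _ ≤ R + R := add_le_add h1 h2
        _ = 2 * R := by ring
    nlinarith
  unfold realEhrhart
  constructor
  · intro h1
    have hne : ({v' : Fin d → ℤ | intVec v' ∈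
        (fun x : Fin d → ℝ => r⁻¹ • x) '' (translate K w)}).Nonempty := by
      rw [nonempty_iff_ne_empty]
      intro hE
      rw [hE, Set.ncard_empty] at h1
      exact absurd h1 (by norm_num)
    obtain ⟨v', hv'⟩ := hne
    have : v' = v := hsub hv'
    subst this
    exact (mem_scaled_iff K w v' hr0).1 hv'
  · intro h
    have : {v' : Fin d → ℤ | intVec v' ∈ (fun x : Fin d → ℝ => r⁻¹ • x) '' (translate K w)}
        = {v} := by
      apply Subset.antisymm hsub
      intro v' hv'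
      rw [mem_singleton_iff] at hv'
      subst hv'
      exact (mem_scaled_iff K w v' hr0).2 h
    rw [this, Set.ncard_singleton]

/-- The points `r v - w` with `r` large are dense. -/
theorem exists_near {d : ℕ} (y : Fin d → ℝ) (r0 ε : ℝ) (hε : 0 < ε) :
    ∃ r : ℝ, r0 < r ∧ ∃ v w : Fin d → ℤ, ∀ i, |r * (v i : ℝ) - (w i : ℝ) - y i| < ε := by
  obtain ⟨r, hrI, hr⟩ : ∃ r, Irrational r ∧ r0 < r := by
    obtain ⟨r, h1, h2⟩ := exists_irrational_btwn (show r0 < r0 + 1 by linarith)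
    exact ⟨r, h1, h2.1⟩
  refine ⟨r, hr, ?_⟩
  have hdense : Dense (AddSubgroup.closure {r, (1 : ℝ)} : Set ℝ) := by
    rw [dense_addSubgroupClosure_pair_iff]
    simpa using hrI
  have key : ∀ t : ℝ, ∃ a b : ℤ, |r * (a : ℝ) - (b : ℝ) - t| < ε := by
    intro t
    obtain ⟨x, hx, hxt⟩ := hdense.exists_dist_lt t hε
    rw [SetLike.mem_coe, AddSubgroup.mem_closure_pair] at hx
    obtain ⟨a, b, hab⟩ := hx
    refine ⟨a, -b, ?_⟩
    rw [Real.dist_eq] at hxt
    have : r * (a : ℝ) - ((-b : ℤ) : ℝ) - t = x - t := by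
      rw [← hab]
      simp only [zsmul_eq_mul, mul_one]
      push_cast
      ring
    rw [this, abs_sub_comm]
    exact hxt
  choose a b hab using fun i => key (y i)
  exact ⟨a, b, hab⟩

theorem subset_of_ehrhart {d : ℕ} (K H : Set (Fin d → ℝ))
    (hKcomp : IsCompact K) (hKconv : Convex ℝ K) (hKint : (interior K).Nonempty)
    (hHcomp : IsCompact H)
    (h : ∀ w : Fin d → ℤ, ∀ s : ℝ, 0 < s →
      realEhrhart (translate K w) s = realEhrhart (translate H w) s) : K ⊆ H := by
  obtain ⟨R, hR⟩ : ∃ R : ℝ, 0 ≤ R ∧ (∀ x ∈ K, ∀ i, |x i| ≤ R) ∧ (∀ x ∈ H, ∀ i, |x i| ≤ R) := by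
    obtain ⟨R1, h1⟩ := hKcomp.isBounded.exists_norm_le
    obtain ⟨R2, h2⟩ := hHcomp.isBounded.exists_norm_le
    refine ⟨max (max R1 R2) 0, le_max_right _ _, ?_, ?_⟩
    · intro x hx i
      calc |x i| = ‖x i‖ := rfl
        _ ≤ ‖x‖ := norm_le_pi_norm x i
        _ ≤ R1 := h1 x hx
        _ ≤ _ := le_trans (le_max_left _ _) (le_max_left _ _)
    · intro x hx i
      calc |x i| = ‖x i‖ := rfl
        _ ≤ ‖x‖ := norm_le_pi_norm x i
        _ ≤ R2 := h2 x hx
        _ ≤ _ := le_trans (le_max_right _ _) (le_max_left _ _)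
  obtain ⟨hR0, hKR, hHR⟩ := hR
  by_contra hnot
  rw [not_subset] at hnot
  obtain ⟨x0, hx0K, hx0H⟩ := hnot
  have hcl : x0 ∈ closure (interior K) := by
    rw [hKconv.closure_interior_eq_closure_of_nonempty_interior hKint]
    exact subset_closure hx0K
  have hopenH : IsOpen Hᶜ := hHcomp.isClosed.isOpen_compl
  obtain ⟨y, hyH, hyK⟩ := mem_closure_iff.1 hcl Hᶜ hopenH hx0H
  have hopen : IsOpen (interior K ∩ Hᶜ) := isOpen_interior.inter hopenH
  obtain ⟨ε, hε, hball⟩ := Metric.isOpen_iff.1 hopen y ⟨hyK, hyH⟩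
  obtain ⟨r, hr, v, w, hvw⟩ := exists_near y (2 * R) (ε / 2) (by linarith)
  have hmem : (fun i => r * (v i : ℝ) - (w i : ℝ)) ∈ Metric.ball y ε := by
    rw [Metric.mem_ball, dist_eq_norm]
    apply lt_of_le_of_lt _ (half_lt_self hε)
    rw [pi_norm_le_iff_of_nonneg (by linarith)]
    intro i
    rw [Pi.sub_apply, Real.norm_eq_abs]
    exact (hvw i).le
  obtain ⟨hxK, hxH⟩ := hball hmem
  have hxK' := interior_subset hxK
  have hbound : ∀ i, |r * (v i : ℝ) - (w i : ℝ)| ≤ R := fun i => hKR _ hxK' i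
  have hr0 : 0 < r := by linarith
  have h1 := (ehrhart_detects K R r hR0 hr hKR v w hbound).2 hxK'
  rw [h w r⁻¹ (inv_pos.2 hr0)] at h1
  exact hxH ((ehrhart_detects H R r hR0 hr hHR v w hbound).1 h1)

/-- Two convex bodies in `ℝ^d` whose integer translates all have the same real Ehrhart functions
are equal. -/
theorem result (d : ℕ) (K H : Set (Fin d → ℝ))
    (hKcomp : IsCompact K) (hKconv : Convex ℝ K) (hKint : (interior K).Nonempty)
    (hHcomp : IsCompact H) (hHconv : Convex ℝ H) (hHint : (interior H).Nonempty)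
    (h : ∀ w : Fin d → ℤ, ∀ s : ℝ, 0 < s →
      realEhrhart (translate K w) s = realEhrhart (translate H w) s) : K = H :=
  Subset.antisymm (subset_of_ehrhart K H hKcomp hKconv hKint hHcomp h)
    (subset_of_ehrhart H K hHcomp hHconv hHint hKcomp (fun w s hs => (h w s hs).symm))

end Pool.Agent.Results.MP_c39918_co.TranslatesDetermine
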